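import Pool.Agent.Helper57.BG.Basic
import Pool.Agent.Helper57.BG.Stmts
import Pool.Agent.Helper8.AP.Ph
import Pool.Agent.Helper8.AP.Kl

/-!
# (A'), block K3: incomplete Kloosterman sums in progressions
-/

set_option autoImplicit false
set_option maxHeartbeats 400000

open Finset

namespace Pool.Agent.Helper88.AP

open Pool.Agent.Helper57.BG (ph kl)
open Pool.Agent.Helper8.AP (ez norm_std ph_eq_std)

/-! ### sums over units -/

lemma sum_units88 {R : Type*} [CommRing R] [Fintype R] [DecidableEq R] [Fintype Rˣ]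
    [DecidablePred fun x : R => IsUnit x] (f : R → ℂ) :
    ∑ x : Rˣ, f x = ∑ x ∈ univ.filter (fun x : R => IsUnit x), f x := by
  refine Finset.sum_bij (fun x _ => (x : R)) (fun x _ => ?_) (fun x _ y _ h => Units.ext h)
    (fun y hy => ?_) (fun _ _ => rfl)
  · rw [mem_filter]
    exact ⟨mem_univ _, x.isUnit⟩
  · rw [mem_filter] at hy
    obtain ⟨u, hu⟩ := hy.2
    exact ⟨u, mem_univ _, hu⟩

/-! ### Ramanujan sums -/

/-- the Ramanujan sum -/
noncomputable def rs (V : ℕ) [NeZero V] (c : ZMod V) : ℂ :=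
  ∑ x : (ZMod V)ˣ, ZMod.stdAddChar (c * (x : ZMod V))

lemma kl_zero (V : ℕ) [NeZero V] (c : ZMod V) : kl V 0 c = rs V c := by
  unfold kl rs
  refine Fintype.sum_equiv (Equiv.inv _) _ _ fun x => ?_
  rw [zero_mul, zero_add]
  rfl

lemma rs_prime (p : ℕ) [Fact p.Prime] [NeZero p] (c : ℤ) :
    ‖rs p (c : ZMod p)‖ ≤ (Int.gcd c p : ℕ) := by
  classical
  have h1 : rs p (c : ZMod p) = (∑ x : ZMod p, ZMod.stdAddChar ((c : ZMod p) * x)) - 1 := by
    unfold rs
    rw [sum_units88 (fun x : ZMod p => (ZMod.stdAddChar ((c : ZMod p) * x) : ℂ))]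
    have h2 : univ.filter (fun x : ZMod p => IsUnit x) = univ.erase 0 := by
      ext x
      simp [isUnit_iff_ne_zero]
    rw [h2, ← Finset.add_sum_erase univ _ (mem_univ (0 : ZMod p)), mul_zero,
      AddChar.map_zero_eq_one]
    ring
  have h3 : (∑ x : ZMod p, (ZMod.stdAddChar ((c : ZMod p) * x) : ℂ)) =
      if (c : ZMod p) = 0 then (p : ℂ) else 0 := by
    have h4 := AddChar.sum_mulShift (R' := ℂ) (c : ZMod p) (ZMod.isPrimitive_stdAddChar p)
    rw [ZMod.card, Nat.cast_ite, Nat.cast_zero] at h4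
    rw [← h4]
    refine Finset.sum_congr rfl fun x _ => ?_
    rw [mul_comm]
  rw [h1, h3]
  have hp : 1 ≤ p := (Fact.out : p.Prime).one_lt.le
  split_ifs with h
  · have h5 : (p : ℤ) ∣ c := (ZMod.intCast_zmod_eq_zero_iff_dvd c p).1 h
    have h6 : Int.gcd c p = p := by
      rw [Int.gcd_comm]
      exact Nat.gcd_eq_left (by simpa using Int.natAbs_dvd_natAbs.2 h5)
    rw [h6]
    have h7 : ((p : ℂ) - 1) = (((p - 1 : ℕ) : ℝ) : ℂ) := by
      push_cast [Nat.cast_sub hp]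
      ring
    rw [h7, Complex.norm_real, Real.norm_of_nonneg (Nat.cast_nonneg _)]
    exact_mod_cast Nat.sub_le _ _
  · rw [zero_sub, norm_neg, norm_one]
    have : 0 < Int.gcd c p := by
      rw [Int.gcd_pos_iff]
      right
      exact_mod_cast (Fact.out : p.Prime).ne_zero
    exact_mod_cast this

lemma rs_mul (m n : ℕ) [NeZero m] [NeZero n] [NeZero (m * n)] (h : Nat.Coprime m n) (c u v : ℤ)
    (huv : (m : ℤ) * u + n * v = 1) :
    rs (m * n) (c : ZMod (m * n)) = rs m ((c * v : ℤ) : ZMod m) * rs n ((c * u : ℤ) : ZMod n) := by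
  classical
  have key : ∀ x : ZMod (m * n), (ZMod.stdAddChar ((c : ZMod (m * n)) * x) : ℂ) =
      ZMod.stdAddChar (((c * v : ℤ) : ZMod m) * (ZMod.chineseRemainder h x).1) *
        ZMod.stdAddChar (((c * u : ℤ) : ZMod n) * (ZMod.chineseRemainder h x).2) := by
    intro x
    obtain ⟨X, rfl⟩ : ∃ X : ℤ, (X : ZMod (m * n)) = x := ⟨x.val, by
      push_cast
      rw [ZMod.natCast_zmod_val]⟩
    rw [map_intCast, Prod.fst_intCast, Prod.snd_intCast]
    have e1 := Pool.Agent.Helper8.AP.ez_eq_std (m * n) (c * X)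
    have e2 := Pool.Agent.Helper8.AP.ez_eq_std m (c * v * X)
    have e3 := Pool.Agent.Helper8.AP.ez_eq_std n (c * u * X)
    push_cast at e1 e2 e3 ⊢
    rw [← e1, ← e2, ← e3]
    have hn : n ≠ 0 := NeZero.ne n
    have hm : m ≠ 0 := NeZero.ne m
    rw [← Pool.Agent.Helper8.AP.ez_mul_left m n hn, ← Pool.Agent.Helper8.AP.ez_mul_left n m hm,
      show n * m = m * n from mul_comm n m, ← Pool.Agent.Helper8.AP.ez_add]
    congr 1
    linear_combination (- c * X) * huv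
  unfold rs
  rw [Finset.sum_mul_sum, ← Finset.sum_product', Finset.univ_product_univ]
  refine Fintype.sum_equiv
    ((Units.mapEquiv (ZMod.chineseRemainder h).toMulEquiv).trans MulEquiv.prodUnits).toEquiv _ _
      fun x => ?_
  rw [key]
  rfl

lemma gcd_le88 (m n : ℕ) (h : Nat.Coprime m n) (c u v : ℤ)
    (huv : (m : ℤ) * u + n * v = 1) :
    Int.gcd (c * v) m * Int.gcd (c * u) n = Int.gcd c ((m * n : ℕ) : ℤ) := by
  have hv : IsCoprime v (m : ℤ) := ⟨n, u, by linear_combination huv⟩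
  have hu : IsCoprime u (n : ℤ) := ⟨m, v, by linear_combination huv⟩
  have h1 : Int.gcd (c * v) m = Int.gcd c m := by
    have := Int.isCoprime_iff_gcd_eq_one.1 hv
    rw [Int.gcd_eq_natAbs, Int.gcd_eq_natAbs, Int.natAbs_mul]
    exact Nat.Coprime.gcd_mul_right_cancel _ this
  have h2 : Int.gcd (c * u) n = Int.gcd c n := by
    have := Int.isCoprime_iff_gcd_eq_one.1 hu
    rw [Int.gcd_eq_natAbs, Int.gcd_eq_natAbs, Int.natAbs_mul]
    exact Nat.Coprime.gcd_mul_right_cancel _ this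
  rw [h1, h2]
  exact (Nat.Coprime.gcd_mul c.natAbs h).symm

theorem rs_le : ∀ (V : ℕ) [NeZero V], Squarefree V → ∀ c : ℤ,
    ‖rs V (c : ZMod V)‖ ≤ (Int.gcd c V : ℕ) := by
  intro V
  induction V using Nat.strong_induction_on with
  | _ V ih =>
    intro _ hV c
    rcases eq_or_ne V 1 with h1 | h1
    · subst h1
      have h2 : rs 1 (c : ZMod 1) = 1 := by
        unfold rs
        rw [Fintype.sum_unique]
        have : ((c : ZMod 1) * ((default : (ZMod 1)ˣ) : ZMod 1)) = 0 := Subsingleton.elim _ _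
        rw [this, AddChar.map_zero_eq_one]
      rw [h2, norm_one]
      simp
    · obtain ⟨p, hp, m, rfl⟩ := Nat.exists_prime_and_dvd h1
      obtain ⟨h2, -, h4⟩ := Nat.squarefree_mul_iff.1 hV
      have hm : m ≠ 0 := by
        rintro rfl
        exact NeZero.ne (p * 0) (mul_zero p)
      have i1 : NeZero m := ⟨hm⟩
      have i2 : NeZero p := ⟨hp.ne_zero⟩
      have i3 : Fact p.Prime := ⟨hp⟩
      have hlt : m < p * m := by
        have := hp.one_lt
        have := Nat.pos_of_ne_zero hm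
        nlinarith
      obtain ⟨u, v, huv⟩ : ∃ u v : ℤ, (p : ℤ) * u + m * v = 1 := by
        obtain ⟨a, b, hab⟩ := Nat.isCoprime_iff_coprime.2 h2
        exact ⟨a, b, by linear_combination hab⟩
      rw [rs_mul p m h2 c u v huv, norm_mul, ← gcd_le88 p m h2 c u v huv, Nat.cast_mul]
      exact mul_le_mul (rs_prime p (c * v)) (ih m hlt h4 (c * u)) (norm_nonneg _) (Nat.cast_nonneg _)

/-! ### completion -/

lemma completion88 (V : ℕ) [NeZero V] (f : ZMod V → ℂ) (a b : ℤ) :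
    ∑ t ∈ Ioc a b, f (t : ZMod V) = 1 / (V : ℂ) * ∑ r : ZMod V,
      (∑ s : ZMod V, f s * ZMod.stdAddChar (-(r * s))) *
        ∑ t ∈ Ioc a b, ZMod.stdAddChar (r * (t : ZMod V)) := by
  classical
  have hV : (V : ℂ) ≠ 0 := by exact_mod_cast NeZero.ne V
  have h1 : ∑ r : ZMod V, (∑ s : ZMod V, f s * ZMod.stdAddChar (-(r * s))) *
        ∑ t ∈ Ioc a b, (ZMod.stdAddChar (r * (t : ZMod V)) : ℂ) =
      ∑ t ∈ Ioc a b, ∑ s : ZMod V, f s * ∑ r : ZMod V, ZMod.stdAddChar (r * ((t : ZMod V) - s)) := by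
    have h2 : ∀ (t : ℤ) (s r : ZMod V), f s * (ZMod.stdAddChar (r * ((t : ZMod V) - s)) : ℂ) =
        f s * ZMod.stdAddChar (-(r * s)) * ZMod.stdAddChar (r * (t : ZMod V)) := by
      intro t s r
      rw [mul_assoc, ← AddChar.map_add_eq_mul]
      congr 2
      ring
    calc _ = ∑ r : ZMod V, ∑ s : ZMod V, ∑ t ∈ Ioc a b,
          f s * ZMod.stdAddChar (-(r * s)) * (ZMod.stdAddChar (r * (t : ZMod V)) : ℂ) :=
          Finset.sum_congr rfl fun r _ => Finset.sum_mul_sum _ _ _ _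
      _ = ∑ r : ZMod V, ∑ t ∈ Ioc a b, ∑ s : ZMod V,
          f s * ZMod.stdAddChar (-(r * s)) * (ZMod.stdAddChar (r * (t : ZMod V)) : ℂ) :=
          Finset.sum_congr rfl fun r _ => Finset.sum_comm
      _ = ∑ t ∈ Ioc a b, ∑ r : ZMod V, ∑ s : ZMod V,
          f s * ZMod.stdAddChar (-(r * s)) * (ZMod.stdAddChar (r * (t : ZMod V)) : ℂ) := Finset.sum_comm
      _ = ∑ t ∈ Ioc a b, ∑ s : ZMod V, ∑ r : ZMod V,
          f s * ZMod.stdAddChar (-(r * s)) * (ZMod.stdAddChar (r * (t : ZMod V)) : ℂ) :=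
          Finset.sum_congr rfl fun r _ => Finset.sum_comm
      _ = _ := by
          refine Finset.sum_congr rfl fun t _ => Finset.sum_congr rfl fun s _ => ?_
          rw [Finset.mul_sum]
          exact Finset.sum_congr rfl fun r _ => (h2 t s r).symm
  rw [h1]
  have h3 : ∀ t : ℤ, ∑ s : ZMod V, f s * ∑ r : ZMod V, (ZMod.stdAddChar (r * ((t : ZMod V) - s)) : ℂ) =
      V * f (t : ZMod V) := by
    intro t
    have h4 : ∀ s : ZMod V, ∑ r : ZMod V, (ZMod.stdAddChar (r * ((t : ZMod V) - s)) : ℂ) =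
        if s = (t : ZMod V) then (V : ℂ) else 0 := by
      intro s
      rw [AddChar.sum_mulShift _ (ZMod.isPrimitive_stdAddChar V), ZMod.card]
      simp only [sub_eq_zero, eq_comm]
      push_cast
      rfl
    simp_rw [h4]
    rw [Finset.sum_eq_single (t : ZMod V)]
    · rw [if_pos rfl]
      ring
    · intro s _ hs
      rw [if_neg hs, mul_zero]
    · intro h
      exact absurd (mem_univ _) h
  simp_rw [h3]
  rw [← Finset.mul_sum, ← mul_assoc, one_div, inv_mul_cancel₀ hV, one_mul]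

/-! ### the geometric sums -/

lemma std_zpow88 (V : ℕ) [NeZero V] (r : ZMod V) (t : ℤ) :
    (ZMod.stdAddChar (r * (t : ZMod V)) : ℂ) = (ZMod.stdAddChar r : ℂ) ^ t := by
  rw [← AddChar.map_zsmul_eq_zpow, zsmul_eq_mul, mul_comm]

lemma geo_sum88 (z : ℂ) (hz : z ≠ 0) (a : ℤ) (M : ℕ) :
    (1 - z) * ∑ t ∈ Ioc a (a + M), z ^ t = z ^ (a + 1) - z ^ (a + 1 + M) := by
  induction M with
  | zero => simp
  | succ M ih =>
    have h1 : Ioc a (a + (M + 1 : ℕ)) = insert (a + M + 1) (Ioc a (a + M)) := by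
      ext t
      simp only [mem_insert, mem_Ioc]
      push_cast
      omega
    rw [h1, Finset.sum_insert (by simp), mul_add, ih]
    have h2 : z ^ (a + 1 + ((M + 1 : ℕ) : ℤ)) = z ^ (a + M + 1) * z := by
      rw [← zpow_add_one₀ hz]
      congr 1
      push_cast
      ring
    have h3 : z ^ (a + 1 + (M : ℤ)) = z ^ (a + M + 1) := by
      congr 1
      ring
    rw [h2, h3]
    ring

/-- `|1 - e(x)| ≥ 4 x (1 - x)` -/
lemma one_sub_88 (x : ℝ) (h0 : 0 ≤ x) (h1 : x ≤ 1) :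
    4 * (x * (1 - x)) ≤ ‖1 - Complex.exp (2 * Real.pi * x * Complex.I)‖ := by
  have h2 : ‖1 - Complex.exp (2 * Real.pi * x * Complex.I)‖ = ‖2 * Real.sin (Real.pi * x)‖ := by
    rw [norm_sub_rev]
    have := Complex.norm_exp_I_mul_ofReal_sub_one (2 * Real.pi * x)
    rw [show (2 * Real.pi * x) / 2 = Real.pi * x by ring] at this
    rw [← this]
    congr 3
    push_cast
    ring
  rw [h2, Real.norm_eq_abs]
  have hpi := Real.pi_pos
  have hs : 0 ≤ Real.sin (Real.pi * x) :=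
    Real.sin_nonneg_of_nonneg_of_le_pi (by positivity) (by nlinarith)
  rw [abs_of_nonneg (by positivity)]
  rcases le_total x (1 / 2) with h | h
  · have h3 := Real.mul_le_sin (x := Real.pi * x) (by positivity) (by nlinarith)
    have h4 : 2 / Real.pi * (Real.pi * x) = 2 * x := by field_simp
    rw [h4] at h3
    nlinarith
  · have h3 := Real.mul_le_sin (x := Real.pi * (1 - x)) (by nlinarith) (by nlinarith)
    have h4 : 2 / Real.pi * (Real.pi * (1 - x)) = 2 * (1 - x) := by field_simp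
    rw [h4, show Real.pi * (1 - x) = Real.pi - Real.pi * x by ring, Real.sin_pi_sub] at h3
    nlinarith

lemma neg_val_add88 (V : ℕ) [NeZero V] (r : ZMod V) (hr : r ≠ 0) : (r.val : ℝ) + ((-r).val : ℝ) = V := by
  rw [ZMod.neg_val, if_neg hr, Nat.cast_sub (ZMod.val_lt r).le]
  ring

lemma geo88 (V : ℕ) [NeZero V] (r : ZMod V) (hr : r ≠ 0) (a b : ℤ) :
    ‖∑ t ∈ Ioc a b, (ZMod.stdAddChar (r * (t : ZMod V)) : ℂ)‖ ≤
      (V : ℝ) / 2 * (1 / (r.val : ℝ) + 1 / ((-r).val : ℝ)) := by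
  have hV : (0 : ℝ) < V := by exact_mod_cast Nat.pos_of_ne_zero (NeZero.ne V)
  rcases lt_or_ge b a with hab | hab
  · rw [Ioc_eq_empty (by omega), Finset.sum_empty, norm_zero]
    positivity
  obtain ⟨M, rfl⟩ : ∃ M : ℕ, b = a + M := ⟨(b - a).toNat, by omega⟩
  set z : ℂ := ZMod.stdAddChar r with hz
  have hz1 : ‖z‖ = 1 := norm_std r
  have hz0 : z ≠ 0 := by
    intro h
    rw [h, norm_zero] at hz1
    exact zero_ne_one hz1
  have h1 : ∑ t ∈ Ioc a (a + M), (ZMod.stdAddChar (r * (t : ZMod V)) : ℂ) = ∑ t ∈ Ioc a (a + M), z ^ t :=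
    Finset.sum_congr rfl fun t _ => std_zpow88 V r t
  rw [h1]
  have h2 := geo_sum88 z hz0 a M
  have h3 : ‖1 - z‖ * ‖∑ t ∈ Ioc a (a + M), z ^ t‖ ≤ 2 := by
    rw [← norm_mul, h2]
    refine (norm_sub_le _ _).trans ?_
    rw [norm_zpow, norm_zpow, hz1, one_zpow, one_zpow]
    norm_num
  have hv0 : 0 < (r.val : ℝ) := by
    exact_mod_cast Nat.pos_of_ne_zero fun h => hr ((ZMod.val_eq_zero r).1 h)
  have hw0 : 0 < ((-r).val : ℝ) := by
    exact_mod_cast Nat.pos_of_ne_zero fun h => hr (neg_eq_zero.1 ((ZMod.val_eq_zero (-r)).1 h))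
  have hvw := neg_val_add88 V r hr
  set x : ℝ := (r.val : ℝ) / V with hx
  have hx0 : 0 < x := by positivity
  have hx1 : 1 - x = ((-r).val : ℝ) / V := by
    rw [hx, ← hvw]
    field_simp
    ring
  have hx1' : 0 < 1 - x := by rw [hx1]; positivity
  have hzx : z = Complex.exp (2 * Real.pi * x * Complex.I) := by
    have h5 : ((r.val : ℤ) : ZMod V) = r := by
      push_cast
      rw [ZMod.natCast_zmod_val]
    have h6 := ZMod.stdAddChar_coe (N := V) (r.val : ℤ)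
    rw [h5] at h6
    rw [hz, h6, hx]
    congr 1
    push_cast
    ring
  have h4 := one_sub_88 x hx0.le (by linarith)
  rw [← hzx] at h4
  have h7 : 0 < 4 * (x * (1 - x)) := by positivity
  have h8 : 4 * (x * (1 - x)) * ‖∑ t ∈ Ioc a (a + M), z ^ t‖ ≤ 2 :=
    (mul_le_mul_of_nonneg_right h4 (norm_nonneg _)).trans h3
  have h9 : ‖∑ t ∈ Ioc a (a + M), z ^ t‖ ≤ 2 / (4 * (x * (1 - x))) := by
    rw [le_div_iff₀ h7]
    linarith
  refine h9.trans (le_of_eq ?_)
  rw [hx1, hx]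
  field_simp
  linear_combination (-4 : ℝ) * hvw

/-- `∑ 1/r ≤ 1 + log V` -/
lemma harm88 (V : ℕ) [NeZero V] : ∑ r : ZMod V, 1 / (r.val : ℝ) ≤ 1 + Real.log V := by
  obtain ⟨n, rfl⟩ := Nat.exists_eq_succ_of_ne_zero (NeZero.ne V)
  have h1 : ∑ r : ZMod (n + 1), 1 / (r.val : ℝ) = ∑ j ∈ range (n + 1), 1 / (j : ℝ) :=
    Fin.sum_univ_eq_sum_range (fun j => 1 / (j : ℝ)) (n + 1)
  rw [h1, Finset.sum_range_succ', Nat.cast_zero, div_zero, add_zero]
  have h2 := harmonic_le_one_add_log n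
  unfold harmonic at h2
  push_cast at h2
  refine le_trans (le_of_eq ?_) (h2.trans ?_)
  · refine Finset.sum_congr rfl fun j _ => ?_
    push_cast
    rw [one_div]
  · rcases Nat.eq_zero_or_pos n with h | h
    · subst h
      simp
    · have : Real.log n ≤ Real.log (n + 1) := Real.log_le_log (by exact_mod_cast h) (by linarith)
      push_cast
      linarith

lemma sum_inv88 (V : ℕ) [NeZero V] :
    ∑ r : ZMod V, (V : ℝ) / 2 * (1 / (r.val : ℝ) + 1 / ((-r).val : ℝ)) ≤ V * (1 + Real.log V) := by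
  have h1 : ∑ r : ZMod V, 1 / ((-r).val : ℝ) = ∑ r : ZMod V, 1 / (r.val : ℝ) :=
    Fintype.sum_equiv (Equiv.neg _) _ _ fun r => rfl
  rw [← Finset.mul_sum, Finset.sum_add_distrib, h1]
  have h2 := harm88 V
  have hV : (0 : ℝ) ≤ V := Nat.cast_nonneg _
  nlinarith

/-! ### the transform -/

open Classical in
lemma transform88 (V h : ℕ) [NeZero V] (hhV : Nat.Coprime h V) (c ρ : ℤ) (r : ZMod V) :
    ∃ w : ZMod V, (r = 0 → w = 0) ∧
      ‖∑ s : ZMod V, (if IsUnit ((ρ : ZMod V) + h * s) then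
        (ZMod.stdAddChar ((c : ZMod V) * ((ρ : ZMod V) + h * s)⁻¹) : ℂ) else 0) *
          ZMod.stdAddChar (-(r * s))‖ = ‖kl V w (c : ZMod V)‖ := by
  set u : (ZMod V)ˣ := ZMod.unitOfCoprime h hhV with hu
  have huh : (u : ZMod V) = h := ZMod.coe_unitOfCoprime h hhV
  refine ⟨-(r * (↑u⁻¹ : ZMod V)), fun h0 => by rw [h0, zero_mul, neg_zero], ?_⟩
  set g : ZMod V → ℂ := fun x => if IsUnit x then
    (ZMod.stdAddChar (r * (↑u⁻¹ : ZMod V) * (ρ : ZMod V)) : ℂ) *
      ZMod.stdAddChar (-(r * (↑u⁻¹ : ZMod V)) * x + (c : ZMod V) * x⁻¹) else 0 with hg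
  have h1 : ∑ s : ZMod V, (if IsUnit ((ρ : ZMod V) + h * s) then
        (ZMod.stdAddChar ((c : ZMod V) * ((ρ : ZMod V) + h * s)⁻¹) : ℂ) else 0) *
          ZMod.stdAddChar (-(r * s)) = ∑ x : ZMod V, g x := by
    refine Fintype.sum_equiv ((Units.mulLeft u).trans (Equiv.addLeft (ρ : ZMod V))) _ _ fun s => ?_
    have e1 : ((Units.mulLeft u).trans (Equiv.addLeft (ρ : ZMod V))) s = (ρ : ZMod V) + h * s := by
      rw [Equiv.trans_apply, Equiv.coe_addLeft, Units.mulLeft_apply, huh]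
    rw [e1]
    simp only [hg]
    split_ifs with h2
    · rw [← AddChar.map_add_eq_mul, ← AddChar.map_add_eq_mul]
      congr 1
      have h3 : (↑u⁻¹ : ZMod V) * h = 1 := by rw [← huh]; exact u.inv_mul
      linear_combination (r * s) * h3
    · rw [zero_mul]
  have h2 : ∑ x : ZMod V, g x = (ZMod.stdAddChar (r * (↑u⁻¹ : ZMod V) * (ρ : ZMod V)) : ℂ) *
      kl V (-(r * (↑u⁻¹ : ZMod V))) (c : ZMod V) := by
    unfold kl
    rw [Finset.mul_sum]
    have h3 : ∀ x : (ZMod V)ˣ, (ZMod.stdAddChar (r * (↑u⁻¹ : ZMod V) * (ρ : ZMod V)) : ℂ) *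
        ZMod.stdAddChar (-(r * (↑u⁻¹ : ZMod V)) * (x : ZMod V) + (c : ZMod V) *
          ((x⁻¹ : (ZMod V)ˣ) : ZMod V)) = g (x : ZMod V) := by
      intro x
      simp only [hg]
      rw [if_pos x.isUnit, ZMod.inv_coe_unit]
    rw [Finset.sum_congr rfl fun x _ => h3 x, sum_units88 g, Finset.sum_filter]
    refine Finset.sum_congr rfl fun x _ => ?_
    simp only [hg]
    split_ifs <;> rfl
  rw [h1, h2, norm_mul, norm_std, one_mul]

open Classical in
lemma reindex88 (V h : ℕ) [NeZero V] (hh : 0 < h) (c ρ A : ℤ) (N : ℕ) :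
    ∑ n ∈ (Ioc A (A + N)).filter (fun n => n ≡ ρ [ZMOD h] ∧ IsCoprime n (V : ℤ)), ph V c n =
      ∑ t ∈ Ioc ((A - ρ) / h) ((A + N - ρ) / h), (fun s : ZMod V =>
        if IsUnit ((ρ : ZMod V) + h * s) then
          (ZMod.stdAddChar ((c : ZMod V) * ((ρ : ZMod V) + h * s)⁻¹) : ℂ) else 0) (t : ZMod V) := by
  have hh' : (0 : ℤ) < h := by exact_mod_cast hh
  have hu : ∀ t : ℤ, IsUnit ((ρ : ZMod V) + h * (t : ZMod V)) ↔ IsCoprime (ρ + h * t) (V : ℤ) := by
    intro t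
    have := ZMod.coe_int_isUnit_iff_isCoprime (ρ + h * t) V
    push_cast at this
    rw [this]
    exact isCoprime_comm
  simp only []
  rw [← Finset.sum_filter]
  refine Finset.sum_nbij' (fun n => (n - ρ) / h) (fun t => ρ + h * t) ?_ ?_ ?_ ?_ ?_
  · intro n hn
    rw [mem_filter, mem_Ioc] at hn
    obtain ⟨⟨h1, h2⟩, h3, h4⟩ := hn
    obtain ⟨k, hk⟩ : (h : ℤ) ∣ n - ρ := h3.symm.dvd
    have h5 : (n - ρ) / h = k := by rw [hk]; exact Int.mul_ediv_cancel_left k hh'.ne'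
    have h6 : n = ρ + h * k := by linarith
    rw [mem_filter, mem_Ioc, h5]
    refine ⟨⟨?_, ?_⟩, (hu k).2 (h6 ▸ h4)⟩
    · rw [Int.ediv_lt_iff_lt_mul hh']
      linarith
    · rw [Int.le_ediv_iff_mul_le hh']
      linarith
  · intro t ht
    rw [mem_filter, mem_Ioc, Int.ediv_lt_iff_lt_mul hh', Int.le_ediv_iff_mul_le hh'] at ht
    obtain ⟨⟨h1, h2⟩, h3⟩ := ht
    rw [mem_filter, mem_Ioc]
    refine ⟨⟨by linarith, by linarith⟩, ?_, (hu t).1 h3⟩
    exact (Int.modEq_iff_dvd.2 ⟨-t, by ring⟩)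
  · intro n hn
    rw [mem_filter, mem_Ioc] at hn
    obtain ⟨⟨h1, h2⟩, h3, h4⟩ := hn
    obtain ⟨k, hk⟩ : (h : ℤ) ∣ n - ρ := h3.symm.dvd
    have h5 : (n - ρ) / h = k := by rw [hk]; exact Int.mul_ediv_cancel_left k hh'.ne'
    simp only [h5]
    linarith
  · intro t _
    rw [show ρ + h * t - ρ = h * t by ring]
    exact Int.mul_ediv_cancel_left t hh'.ne'
  · intro n hn
    rw [mem_filter, mem_Ioc] at hn
    obtain ⟨⟨h1, h2⟩, h3, h4⟩ := hn
    obtain ⟨k, hk⟩ : (h : ℤ) ∣ n - ρ := h3.symm.dvd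
    have h5 : (n - ρ) / h = k := by rw [hk]; exact Int.mul_ediv_cancel_left k hh'.ne'
    have h6 : n = ρ + h * k := by linarith
    have h7 : ph V c n = (ZMod.stdAddChar ((c : ZMod V) * (n : ZMod V)⁻¹) : ℂ) := ph_eq_std V c n
    rw [h7, h5, h6]
    push_cast
    rfl

/-- the statement of K2 -/
def StmtK2 : Prop := ∀ (V : ℕ) [NeZero V], Squarefree V → ∀ (a b : ℤ),
    ‖kl V (a : ZMod V) (b : ZMod V)‖ ≤ 2 ^ V.primeFactors.card * (V : ℝ) ^ (3 / 4 : ℝ) *
      ((Nat.gcd (Int.gcd a b) V : ℕ) : ℝ) ^ (1 / 4 : ℝ)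

theorem K3_of (hK2 : StmtK2) (V h : ℕ) (hV : Squarefree V) (hh : 0 < h) (hhV : Nat.Coprime h V)
    (c ρ A : ℤ) (N : ℕ) :
    ‖∑ n ∈ (Ioc A (A + N)).filter (fun n => n ≡ ρ [ZMOD h] ∧ IsCoprime n (V : ℤ)), ph V c n‖ ≤
      ((N : ℝ) / (h * V) + 1) * (Int.gcd c V : ℕ) +
        2 ^ (V.primeFactors.card + 1) * (V : ℝ) ^ (3 / 4 : ℝ) * ((Int.gcd c V : ℕ) : ℝ) ^ (1 / 4 : ℝ) *
          (1 + Real.log V) := by
  classical
  have hV0 : V ≠ 0 := hV.ne_zero
  have i1 : NeZero V := ⟨hV0⟩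
  have hV1 : (1 : ℝ) ≤ V := by exact_mod_cast Nat.pos_of_ne_zero hV0
  have hVp : (0 : ℝ) < V := by linarith
  have hh' : (0 : ℝ) < h := by exact_mod_cast hh
  set g : ℝ := ((Int.gcd c V : ℕ) : ℝ) with hg
  have hg0 : 0 ≤ g := Nat.cast_nonneg _
  set B : ℝ := 2 ^ V.primeFactors.card * (V : ℝ) ^ (3 / 4 : ℝ) * g ^ (1 / 4 : ℝ) with hB
  have hB0 : 0 ≤ B := by positivity
  rw [reindex88 V h hh c ρ A N]
  set f : ZMod V → ℂ := fun s => if IsUnit ((ρ : ZMod V) + h * s) then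
    (ZMod.stdAddChar ((c : ZMod V) * ((ρ : ZMod V) + h * s)⁻¹) : ℂ) else 0 with hf
  set a : ℤ := (A - ρ) / h with ha
  set b : ℤ := (A + N - ρ) / h with hb
  rw [completion88 V f a b]
  set F : ZMod V → ℂ := fun r => ∑ s : ZMod V, f s * ZMod.stdAddChar (-(r * s)) with hF
  set G : ZMod V → ℂ := fun r => ∑ t ∈ Ioc a b, ZMod.stdAddChar (r * (t : ZMod V)) with hG
  have hFB : ∀ r, ‖F r‖ ≤ B := by
    intro r
    obtain ⟨w, -, hw⟩ := transform88 V h hhV c ρ r
    have h1 := hK2 V hV (w.val : ℤ) c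
    have h2 : (((w.val : ℕ) : ℤ) : ZMod V) = w := by
      push_cast
      rw [ZMod.natCast_zmod_val]
    rw [h2] at h1
    refine (le_of_eq hw).trans (h1.trans ?_)
    have h3 : (Nat.gcd (Int.gcd (w.val : ℤ) c) V : ℝ) ≤ g := by
      rw [hg]
      have : Nat.gcd (Int.gcd (w.val : ℤ) c) V ≤ Int.gcd c V := by
        refine Nat.le_of_dvd (Int.gcd_pos_iff.2 (Or.inr (by exact_mod_cast hV0))) ?_
        refine Nat.dvd_gcd ((Nat.gcd_dvd_left _ _).trans ?_) (Nat.gcd_dvd_right _ _)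
        exact Nat.gcd_dvd_right _ _
      exact_mod_cast this
    exact mul_le_mul_of_nonneg_left (Real.rpow_le_rpow (Nat.cast_nonneg _) h3 (by norm_num))
      (by positivity)
  have hF0 : ‖F 0‖ ≤ g := by
    obtain ⟨w, hw0, hw⟩ := transform88 V h hhV c ρ 0
    rw [hw0 rfl, kl_zero] at hw
    exact (le_of_eq hw).trans (rs_le V hV c)
  have hG0 : ‖G 0‖ ≤ N / h + 1 := by
    have h1 : G 0 = ((Ioc a b).card : ℂ) := by
      simp only [hG, zero_mul, AddChar.map_zero_eq_one, Finset.sum_const, nsmul_eq_mul, mul_one]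
    rw [h1, Complex.norm_natCast, Int.card_Ioc]
    rcases le_or_gt b a with h2 | h2
    · rw [Int.toNat_of_nonpos (by omega), Nat.cast_zero]
      positivity
    · have h3 : (((b - a).toNat : ℕ) : ℝ) = (b : ℝ) - a := by
        have : (((b - a).toNat : ℕ) : ℤ) = b - a := Int.toNat_of_nonneg (by omega)
        exact_mod_cast congrArg (Int.cast : ℤ → ℝ) this
      rw [h3]
      have h4 : (h : ℤ) * b ≤ A + N - ρ := Int.mul_ediv_self_le (by exact_mod_cast hh.ne')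
      have h5 : A - ρ < h * a + h := by
        have := Int.lt_mul_ediv_self_add (x := A - ρ) (k := (h : ℤ)) (by exact_mod_cast hh)
        rwa [← ha] at this
      have h6 : (h : ℤ) * (b - a) < N + h := by linarith
      have h7 : (h : ℝ) * ((b : ℝ) - a) < N + h := by exact_mod_cast h6
      have h8 : (N : ℝ) / h + 1 = (N + h) / h := by field_simp
      rw [h8, le_div_iff₀ hh']
      linarith
  have hsplit : ∑ r : ZMod V, F r * G r = F 0 * G 0 + ∑ r ∈ univ.erase 0, F r * G r :=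
    (Finset.add_sum_erase univ _ (mem_univ (0 : ZMod V))).symm
  have h1 : ‖∑ r ∈ univ.erase (0 : ZMod V), F r * G r‖ ≤ B * (V * (1 + Real.log V)) := by
    refine (norm_sum_le _ _).trans ?_
    refine le_trans (Finset.sum_le_sum (g := fun r : ZMod V =>
      B * ((V : ℝ) / 2 * (1 / (r.val : ℝ) + 1 / ((-r).val : ℝ)))) fun r hr => ?_) ?_
    · rw [norm_mul]
      exact mul_le_mul (hFB r) (geo88 V r (Finset.ne_of_mem_erase hr) a b) (norm_nonneg _) hB0
    · refine (Finset.sum_le_univ_sum_of_nonneg fun r => by positivity).trans ?_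
      rw [← Finset.mul_sum]
      exact mul_le_mul_of_nonneg_left (sum_inv88 V) hB0
  have h2 : ‖F 0 * G 0‖ ≤ g * (N / h + 1) := by
    rw [norm_mul]
    exact mul_le_mul hF0 hG0 (norm_nonneg _) hg0
  have h3 : ‖1 / (V : ℂ) * ∑ r : ZMod V, F r * G r‖ ≤
      1 / (V : ℝ) * (g * (N / h + 1) + B * (V * (1 + Real.log V))) := by
    rw [norm_mul, norm_div, norm_one, Complex.norm_natCast, hsplit]
    exact mul_le_mul_of_nonneg_left ((norm_add_le _ _).trans (add_le_add h2 h1)) (by positivity)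
  refine h3.trans ?_
  have hlog : 0 ≤ Real.log V := Real.log_nonneg hV1
  have h4 : 1 / (V : ℝ) * (g * (N / h + 1) + B * (V * (1 + Real.log V))) =
      g * (N / (h * V) + 1 / V) + B * (1 + Real.log V) := by
    field_simp
  rw [h4]
  have h5 : 1 / (V : ℝ) ≤ 1 := by
    rw [div_le_one hVp]
    exact hV1
  have h6 : g * (N / (h * V) + 1 / V) ≤ (N / (h * V) + 1) * g := by
    rw [mul_comm g]
    exact mul_le_mul_of_nonneg_right (by linarith) hg0
  have h7 : B * (1 + Real.log V) ≤ 2 ^ (V.primeFactors.card + 1) * (V : ℝ) ^ (3 / 4 : ℝ) *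
      g ^ (1 / 4 : ℝ) * (1 + Real.log V) := by
    refine mul_le_mul_of_nonneg_right ?_ (by linarith)
    rw [pow_succ]
    have : 2 ^ V.primeFactors.card * 2 * (V : ℝ) ^ (3 / 4 : ℝ) * g ^ (1 / 4 : ℝ) = 2 * B := by
      rw [hB]; ring
    rw [this]
    linarith
  linarith

theorem K3 (V h : ℕ) (hV : Squarefree V) (hh : 0 < h) (hhV : Nat.Coprime h V) (c ρ A : ℤ) (N : ℕ) :
    ‖∑ n ∈ (Ioc A (A + N)).filter (fun n => n ≡ ρ [ZMOD h] ∧ IsCoprime n (V : ℤ)), ph V c n‖ ≤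
      ((N : ℝ) / (h * V) + 1) * (Int.gcd c V : ℕ) +
        2 ^ (V.primeFactors.card + 1) * (V : ℝ) ^ (3 / 4 : ℝ) * ((Int.gcd c V : ℕ) : ℝ) ^ (1 / 4 : ℝ) *
          (1 + Real.log V) :=
  K3_of (fun V _ hV a b => Pool.Agent.Helper8.AP.K2 V hV a b) V h hV hh hhV c ρ A N

/-- block K3 in the shape asked for by Asm -/
theorem stmt_K3 : Pool.Agent.Helper57.BG.Stmt_K3 :=
  fun V h hV hh hhV c ρ A N => K3 V h hV hh hhV c ρ A N

end Pool.Agent.Helper88.AP
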