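import Pool.Agent.Helper72.AP.Defs

/-! Project AP (MP_9ee088_an), block B8: nondegeneracy of all potentials `g + κ h_ω` at once. -/

set_option autoImplicit false
open MeasureTheory Real Set Filter Topology
open scoped ENNReal

namespace Pool.Agent.Helper88.AP

open Pool.Agent.Helper72.AP (Rs Ent2 Kk)
open Pool.Agent.Helper95.PV
open Pool.Agent.Helper18.UC (T2 rep toT nn)
open Pool.Agent.Helper18.FD (NN rr pr cl uu lm Bump k1 k2 NN_pos NN_ge)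

/-- statement of block B3 -/
def Mcd : Prop := ∀ (L : Measure Om), IsProbabilityMeasure L → ∀ (S : Finset Ix), (∀ i ∈ S, Rs L i) →
    ∀ (f : Om → ℝ), Measurable f → ∀ (K : ℝ), (∀ ω, |f ω| ≤ K) → ∀ (c : Ix → ℝ),
    (∀ i ∈ S, ∀ ω u, |f (Function.update ω i u) - f ω| ≤ c i) → ∀ (M t : ℝ), 0 ≤ t →
    (∀ ω : Om, ∫ η : Om, f (fun i => if i ∈ S then η i else ω i) ∂PP ≤ M) →
    L {ω | M + t ≤ f ω} ≤ ENNReal.ofReal (Real.exp (-(t ^ 2 / (2 * ∑ i ∈ S, c i ^ 2))))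

/-- statement of block B4c -/
def VolUpd : Prop := ∀ (χ : ℝ → ℝ), Bump χ → ∀ (s : ℝ), 0 < s → s < 1 → ∀ (g : ℝ → ℝ), Measurable g →
    ∀ (κ δ : ℝ) (ω : Om) (l c : ℕ) (b : Bool) (u : ℝ),
    |(volume.restrict (Ico (0 : ℝ) 1)).real {x | |g x + κ * h2 χ s (Function.update ω (l, c, b) u) x| < δ} -
      (volume.restrict (Ico (0 : ℝ) 1)).real {x | |g x + κ * h2 χ s ω x| < δ}| ≤ 2 / NN l

private theorem cl_eq_88 {v : ℝ} (hv : v ∈ Icc (-1 : ℝ) 1) : cl v = v := by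
  unfold cl
  rw [min_eq_right hv.2, max_eq_right hv.1]

private theorem uu_small_88 {K δ P : ℝ} (hK : 0 < K) :
    uu {v | |P + K * cl v| < δ} ≤ ENNReal.ofReal (δ / K) := by
  have hm : MeasurableSet (Icc (-1 : ℝ) 1) := measurableSet_Icc
  have h1 : uu {v | |P + K * cl v| < δ} = (2 : ℝ≥0∞)⁻¹ * volume ({v | |P + K * cl v| < δ} ∩ Icc (-1 : ℝ) 1) := by
    rw [uu, Measure.smul_apply, Measure.restrict_apply' hm, smul_eq_mul]
  rw [h1]
  have h2 : {v | |P + K * cl v| < δ} ∩ Icc (-1 : ℝ) 1 ⊆ Ioo ((-δ - P) / K) ((δ - P) / K) := by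
    rintro v ⟨hv, hv1⟩
    simp only [mem_ofPred_eq] at hv
    rw [cl_eq_88 hv1, abs_lt] at hv
    constructor
    · rw [div_lt_iff₀ hK]; linarith [hv.1]
    · rw [lt_div_iff₀ hK]; linarith [hv.2]
  calc (2 : ℝ≥0∞)⁻¹ * volume ({v | |P + K * cl v| < δ} ∩ Icc (-1 : ℝ) 1)
      ≤ (2 : ℝ≥0∞)⁻¹ * volume (Ioo ((-δ - P) / K) ((δ - P) / K)) := by gcongr
    _ = ENNReal.ofReal (δ / K) := by
        rw [Real.volume_Ioo, show (2 : ℝ≥0∞)⁻¹ = ENNReal.ofReal (1 / 2) by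
          rw [one_div, ENNReal.ofReal_inv_of_pos (by norm_num)]; norm_num,
          ← ENNReal.ofReal_mul (by norm_num)]
        congr 1
        field_simp
        ring

/-- the noise with the coordinates in `S` replaced -/
def mix (S : Finset Ix) (ω η : Om) : Om := fun i => if i ∈ S then η i else ω i

private theorem mix_meas88 (S : Finset Ix) (ω : Om) : Measurable (mix S ω) := by
  refine measurable_pi_iff.2 fun i => ?_
  unfold mix
  by_cases h : i ∈ S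
  · simp only [h, if_true]
    exact measurable_pi_apply i
  · simp only [h, if_false]
    exact measurable_const

private theorem mix_upd88 {S : Finset Ix} {i : Ix} (hi : i ∈ S) (ω η : Om) (u : ℝ) :
    mix S ω (Function.update η i u) = Function.update (mix S ω η) i u := by
  funext j
  unfold mix
  by_cases h : j = i
  · subst h
    rw [Function.update_self, Function.update_self, if_pos hi]
  · rw [Function.update_of_ne h, Function.update_of_ne h]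

private theorem pt88 {χ : ℝ → ℝ} (hχ : Bump χ) {s : ℝ} (hs : 0 < s) (y : ℝ) {κ δ : ℝ} (hκ : 0 < κ)
    (lo : ℕ) {S : Finset Ix} (hS : ∀ c < NN lo, (lo, c, true) ∈ S) (ω : Om) (x : ℝ) :
    PP {η : Om | |y + κ * h2 χ s (mix S ω η) x| < δ} ≤ ENNReal.ofReal (δ / (κ * (NN lo : ℝ) ^ (-s))) := by
  obtain ⟨-, -, m2⟩ := h_meas hχ hs
  have m3 : Measurable fun η : Om => h2 χ s (mix S ω η) x :=
    m2.comp ((mix_meas88 S ω).prodMk measurable_const)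
  set i := cel lo (x : UnitAddCircle) with hi
  have hil : i < NN lo := cel_lt lo _
  have hiS : ((lo, i, true) : Ix) ∈ S := hS i hil
  have hin : |(NN lo : ℝ) * rr (x - i / NN lo)| ≤ 1 / 2 := by
    have := inn_cel lo (x : UnitAddCircle)
    unfold inn at this
    rw [tc_coe] at this
    exact this
  have hms : MeasurableSet {η : Om | |y + κ * h2 χ s (mix S ω η) x| < δ} :=
    measurableSet_lt ((measurable_const.add (m3.const_mul κ)).abs) measurable_const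
  have hF : Measurable (Set.indicator {η : Om | |y + κ * h2 χ s (mix S ω η) x| < δ} (fun _ => (1 : ℝ≥0∞))) :=
    measurable_const.indicator hms
  have h1 : PP {η : Om | |y + κ * h2 χ s (mix S ω η) x| < δ} =
      ∫⁻ η, Set.indicator {η : Om | |y + κ * h2 χ s (mix S ω η) x| < δ} (fun _ => (1 : ℝ≥0∞)) η ∂PP := by
    rw [lintegral_indicator hms, setLIntegral_one]
  rw [h1, res1 (lo, i, true) hF]
  have hK : 0 < κ * (NN lo : ℝ) ^ (-s) := mul_pos hκ (Real.rpow_pos_of_pos (NN_pos lo) _)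
  have h2' : ∀ η : Om, ∫⁻ u, Set.indicator {η : Om | |y + κ * h2 χ s (mix S ω η) x| < δ} (fun _ => (1 : ℝ≥0∞))
      (Function.update η (lo, i, true) u) ∂uu ≤ ENNReal.ofReal (δ / (κ * (NN lo : ℝ) ^ (-s))) := by
    intro η
    have e1 : ∀ u : ℝ, mix S ω (Function.update η (lo, i, true) u) =
        upd lo i (mix S ω η (lo, i, false)) u (mix S ω η) := by
      intro u
      rw [mix_upd88 hiS]
      unfold upd
      rw [Function.update_eq_self]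
    have e2 : ∀ u : ℝ, y + κ * h2 χ s (mix S ω (Function.update η (lo, i, true) u)) x =
        (y + κ * h2 χ s (mix S ω η) x - κ * (NN lo : ℝ) ^ (-s) * cl (mix S ω η (lo, i, true))) +
          (κ * (NN lo : ℝ) ^ (-s)) * cl u := by
      intro u
      rw [e1 u, (h_inn hχ hs hil (mix S ω η (lo, i, false)) u (mix S ω η) hin).2]
      ring
    have e3 : ∀ u : ℝ, Set.indicator {η : Om | |y + κ * h2 χ s (mix S ω η) x| < δ} (fun _ => (1 : ℝ≥0∞))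
        (Function.update η (lo, i, true) u) = Set.indicator {v : ℝ | |(y + κ * h2 χ s (mix S ω η) x -
          κ * (NN lo : ℝ) ^ (-s) * cl (mix S ω η (lo, i, true))) + (κ * (NN lo : ℝ) ^ (-s)) * cl v| < δ}
          (fun _ => (1 : ℝ≥0∞)) u := by
      intro u
      simp only [Set.indicator, mem_ofPred_eq, e2 u]
    have hcl : Measurable cl := by
      unfold cl
      exact measurable_const.max (measurable_const.min measurable_id)
    have hms2 : MeasurableSet {v : ℝ | |(y + κ * h2 χ s (mix S ω η) x -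
          κ * (NN lo : ℝ) ^ (-s) * cl (mix S ω η (lo, i, true))) + (κ * (NN lo : ℝ) ^ (-s)) * cl v| < δ} :=
      measurableSet_lt ((measurable_const.add (measurable_const.mul hcl)).abs) measurable_const
    rw [lintegral_congr e3, lintegral_indicator hms2, setLIntegral_one]
    exact uu_small_88 hK
  calc ∫⁻ η, ∫⁻ u, Set.indicator {η : Om | |y + κ * h2 χ s (mix S ω η) x| < δ} (fun _ => (1 : ℝ≥0∞))
          (Function.update η (lo, i, true) u) ∂uu ∂PP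
      ≤ ∫⁻ _η, ENNReal.ofReal (δ / (κ * (NN lo : ℝ) ^ (-s))) ∂PP := lintegral_mono h2'
    _ = ENNReal.ofReal (δ / (κ * (NN lo : ℝ) ^ (-s))) := by
        rw [lintegral_const, measure_univ, mul_one]

/-- the measure of the set where the second derivative is small -/
noncomputable def vf (χ : ℝ → ℝ) (s κ δ : ℝ) (g : ℝ → ℝ) (ω : Om) : ℝ :=
  (volume.restrict (Ico (0 : ℝ) 1)).real {x | |g x + κ * h2 χ s ω x| < δ}

private theorem prob88 : IsProbabilityMeasure (volume.restrict (Ico (0 : ℝ) 1)) :=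
  ⟨by rw [Measure.restrict_apply MeasurableSet.univ, univ_inter, Real.volume_Ico]; norm_num⟩

private theorem set88 {χ : ℝ → ℝ} (hχ : Bump χ) {s : ℝ} (hs : 0 < s) {g : ℝ → ℝ} (hg : Measurable g) (κ δ : ℝ) :
    MeasurableSet {q : Om × ℝ | |g q.2 + κ * h2 χ s q.1 q.2| < δ} := by
  obtain ⟨-, -, m2⟩ := h_meas hχ hs
  exact measurableSet_lt (((hg.comp measurable_snd).add (m2.const_mul κ)).abs) measurable_const

private theorem vf_meas88 {χ : ℝ → ℝ} (hχ : Bump χ) {s : ℝ} (hs : 0 < s) {g : ℝ → ℝ} (hg : Measurable g)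
    (κ δ : ℝ) : Measurable (vf χ s κ δ g) := by
  have hp := prob88
  have h1 := measurable_measure_prodMk_left (ν := volume.restrict (Ico (0 : ℝ) 1)) (set88 hχ hs hg κ δ)
  exact h1.ennreal_toReal

private theorem vf_bd88 (χ : ℝ → ℝ) (s κ δ : ℝ) (g : ℝ → ℝ) (ω : Om) : 0 ≤ vf χ s κ δ g ω ∧ vf χ s κ δ g ω ≤ 1 := by
  have hp := prob88
  exact ⟨measureReal_nonneg, measureReal_le_one⟩

private theorem mean88 {χ : ℝ → ℝ} (hχ : Bump χ) {s : ℝ} (hs : 0 < s) {g : ℝ → ℝ} (hg : Measurable g)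
    {κ δ : ℝ} (hκ : 0 < κ) (hδ : 0 ≤ δ) (lo : ℕ) {S : Finset Ix} (hS : ∀ c < NN lo, (lo, c, true) ∈ S) (ω : Om) :
    ∫ η : Om, vf χ s κ δ g (mix S ω η) ∂PP ≤ δ / (κ * (NN lo : ℝ) ^ (-s)) := by
  have hp := prob88
  have hK : 0 < κ * (NN lo : ℝ) ^ (-s) := mul_pos hκ (Real.rpow_pos_of_pos (NN_pos lo) _)
  have hset : MeasurableSet {q : Om × ℝ | |g q.2 + κ * h2 χ s (mix S ω q.1) q.2| < δ} := by
    have h1 : Measurable fun q : Om × ℝ => ((mix S ω q.1, q.2) : Om × ℝ) :=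
      ((mix_meas88 S ω).comp measurable_fst).prodMk measurable_snd
    exact h1 (set88 hχ hs hg κ δ)
  have e1 : ∫ η : Om, vf χ s κ δ g (mix S ω η) ∂PP = (∫⁻ η : Om, (volume.restrict (Ico (0 : ℝ) 1))
      {x | |g x + κ * h2 χ s (mix S ω η) x| < δ} ∂PP).toReal := by
    refine integral_toReal ?_ (Eventually.of_forall fun η => measure_lt_top _ _)
    exact (measurable_measure_prodMk_left (ν := volume.restrict (Ico (0 : ℝ) 1)) hset).aemeasurable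
  have e2 : ∫⁻ η : Om, (volume.restrict (Ico (0 : ℝ) 1)) {x | |g x + κ * h2 χ s (mix S ω η) x| < δ} ∂PP =
      (PP.prod (volume.restrict (Ico (0 : ℝ) 1))) {q : Om × ℝ | |g q.2 + κ * h2 χ s (mix S ω q.1) q.2| < δ} := by
    rw [Measure.prod_apply hset]
    rfl
  rw [e1, e2, Measure.prod_apply_symm hset]
  have e3 : ∫⁻ x, PP ((fun η => (η, x)) ⁻¹' {q : Om × ℝ | |g q.2 + κ * h2 χ s (mix S ω q.1) q.2| < δ})
      ∂volume.restrict (Ico (0 : ℝ) 1) ≤ ENNReal.ofReal (δ / (κ * (NN lo : ℝ) ^ (-s))) := by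
    calc ∫⁻ x, PP ((fun η => (η, x)) ⁻¹' {q : Om × ℝ | |g q.2 + κ * h2 χ s (mix S ω q.1) q.2| < δ})
          ∂volume.restrict (Ico (0 : ℝ) 1)
        ≤ ∫⁻ _x, ENNReal.ofReal (δ / (κ * (NN lo : ℝ) ^ (-s))) ∂volume.restrict (Ico (0 : ℝ) 1) :=
          lintegral_mono fun x => pt88 hχ hs (g x) hκ lo hS ω x
      _ = ENNReal.ofReal (δ / (κ * (NN lo : ℝ) ^ (-s))) := by
          rw [lintegral_const, measure_univ, mul_one]
  calc (∫⁻ x, PP ((fun η => (η, x)) ⁻¹' {q : Om × ℝ | |g q.2 + κ * h2 χ s (mix S ω q.1) q.2| < δ})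
      ∂volume.restrict (Ico (0 : ℝ) 1)).toReal ≤ (ENNReal.ofReal (δ / (κ * (NN lo : ℝ) ^ (-s)))).toReal :=
        ENNReal.toReal_mono ENNReal.ofReal_ne_top e3
    _ = δ / (κ * (NN lo : ℝ) ^ (-s)) := ENNReal.toReal_ofReal (by positivity)

/-- one datum -/
private theorem single88 (H3 : Mcd) (H4 : VolUpd) {χ : ℝ → ℝ} (hχ : Bump χ) {s : ℝ} (hs : 0 < s) (hs1 : s < 1)
    {g : ℝ → ℝ} (hg : Measurable g) {κ δ t : ℝ} (hκ : 0 < κ) (hδ : 0 ≤ δ) (ht : 0 ≤ t) (lo : ℕ) :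
    PP {ω | δ / (κ * (NN lo : ℝ) ^ (-s)) + t ≤ vf χ s κ δ g ω} ≤
      ENNReal.ofReal (Real.exp (-(t ^ 2 * NN lo / 8))) := by
  classical
  obtain ⟨S, hSd⟩ : ∃ S : Finset Ix, S = (Finset.range (NN lo)).image fun c => ((lo, c, true) : Ix) := ⟨_, rfl⟩
  have hS : ∀ c < NN lo, ((lo, c, true) : Ix) ∈ S := by
    intro c hc
    rw [hSd]
    exact Finset.mem_image_of_mem _ (Finset.mem_range.2 hc)
  have hcard : S.card = NN lo := by
    rw [hSd, Finset.card_image_of_injective _ (by intro a b h; simpa using h), Finset.card_range]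
  have hN := NN_pos lo
  have h := H3 PP inferInstance S (fun i _ => res_mp i) (vf χ s κ δ g) (vf_meas88 hχ hs hg κ δ) 1
    (fun ω => by
      obtain ⟨h1, h2⟩ := vf_bd88 χ s κ δ g ω
      rw [abs_of_nonneg h1]
      exact h2) (fun _ => 2 / (NN lo : ℝ))
    (fun i hi ω u => by
      rw [hSd, Finset.mem_image] at hi
      obtain ⟨c, -, rfl⟩ := hi
      exact H4 χ hχ s hs hs1 g hg κ δ ω lo c true u)
    (δ / (κ * (NN lo : ℝ) ^ (-s))) t ht (fun ω => mean88 hχ hs hg hκ hδ lo hS ω)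
  refine h.trans (le_of_eq ?_)
  congr 3
  rw [Finset.sum_const, hcard, nsmul_eq_mul]
  field_simp
  norm_num

private theorem lev88 {b : ℝ} (hb : 0 < b) (j : ℕ) : ∃ lo : ℕ, 8 * (((2 : ℝ) ^ b) ^ j) ^ 3 ≤ NN lo ∧
    (NN lo : ℝ) ≤ 16 * (((2 : ℝ) ^ b) ^ j) ^ 3 := by
  obtain ⟨lo, hlo⟩ : ∃ lo : ℕ, lo = ⌈3 * b * j⌉₊ := ⟨_, rfl⟩
  have h0 : (0 : ℝ) ≤ 3 * b * j := by positivity
  have h1 : 3 * b * j ≤ lo := by rw [hlo]; exact Nat.le_ceil _
  have h2 : (lo : ℝ) ≤ 3 * b * j + 1 := by rw [hlo]; exact (Nat.ceil_lt_add_one h0).le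
  have e0 : (((2 : ℝ) ^ b) ^ j) ^ 3 = (2 : ℝ) ^ (3 * b * j) := by
    rw [← Real.rpow_natCast, ← Real.rpow_natCast, ← Real.rpow_mul (by positivity), ← Real.rpow_mul (by norm_num)]
    congr 1
    push_cast
    ring
  have e1 : (NN lo : ℝ) = 8 * (2 : ℝ) ^ (lo : ℝ) := by
    unfold NN
    rw [Real.rpow_natCast]
    push_cast
    ring
  have e2 : (2 : ℝ) ^ (3 * b * j) ≤ (2 : ℝ) ^ (lo : ℝ) := Real.rpow_le_rpow_of_exponent_le (by norm_num) h1
  have e3 : (2 : ℝ) ^ (lo : ℝ) ≤ (2 : ℝ) ^ (3 * b * j + 1) := Real.rpow_le_rpow_of_exponent_le (by norm_num) h2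
  rw [Real.rpow_add (by norm_num), Real.rpow_one] at e3
  refine ⟨lo, ?_, ?_⟩
  · rw [e0, e1]; linarith
  · rw [e0, e1]; linarith

/-- the bad set at a point of the net -/
def Bs (χ : ℝ → ℝ) (s b C : ℝ) (j i : ℕ) (g : Kk) : Set Om :=
  {ω | ((2 : ℝ) ^ j) ^ (-(1 / 2 : ℝ)) / 2 ≤ (i : ℝ) / 2 ^ j ∧
    (((2 : ℝ) ^ b) ^ j)⁻¹ / 2 ≤ vf χ s ((i : ℝ) / 2 ^ j) ((2 + C) / 2 ^ j) g.2 ω}

private theorem perj88 (H3 : Mcd) (H4 : VolUpd) {χ : ℝ → ℝ} (hχ : Bump χ) {s : ℝ} (hs : 0 < s) (hs1 : s < 1)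
    {C : ℝ} (hC : 1 ≤ C) {b : ℝ} (hb : 0 < b) (hb1 : b ≤ 1 / 10) {j : ℕ} (hX : 128 * (2 + C) ≤ ((2 : ℝ) ^ b) ^ j)
    (i : ℕ) {g : Kk} (hg : Measurable g.2) :
    PP (Bs χ s b C j i g) ≤ ENNReal.ofReal (Real.exp (-(((2 : ℝ) ^ b) ^ j / 16))) := by
  by_cases hi : ((2 : ℝ) ^ j) ^ (-(1 / 2 : ℝ)) / 2 ≤ (i : ℝ) / 2 ^ j
  swap
  · have : Bs χ s b C j i g = ∅ := by
      ext ω
      simp only [Bs, mem_ofPred_eq, mem_empty_iff_false, iff_false]
      exact fun h => hi h.1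
    rw [this, measure_empty]
    exact bot_le
  obtain ⟨T, hT⟩ : ∃ T : ℝ, T = (2 : ℝ) ^ j := ⟨_, rfl⟩
  obtain ⟨X, hXd⟩ : ∃ X : ℝ, X = ((2 : ℝ) ^ b) ^ j := ⟨_, rfl⟩
  have hT1 : 1 ≤ T := by rw [hT]; exact one_le_pow₀ (by norm_num)
  have hT0 : 0 < T := by linarith
  have hX1 : 384 ≤ X := by rw [hXd]; linarith
  have hX0 : 0 < X := by linarith
  obtain ⟨lo, hl1, hl2⟩ := lev88 hb j
  rw [← hXd] at hl1 hl2 hX
  have hXT : X = T ^ b := by
    rw [hXd, hT, Real.rpow_pow_comm (by norm_num)]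
  obtain ⟨κ, hκd⟩ : ∃ κ : ℝ, κ = (i : ℝ) / 2 ^ j := ⟨_, rfl⟩
  rw [← hκd, ← hT] at hi
  have hκ : 0 < κ := lt_of_lt_of_le (by positivity) hi
  have h5 : T ^ (-(1 / 2 : ℝ)) ≤ (X ^ 5)⁻¹ := by
    have e1 : (X ^ 5)⁻¹ = T ^ (-(5 * b)) := by
      rw [hXT, ← Real.rpow_natCast, ← Real.rpow_mul hT0.le, ← Real.rpow_neg hT0.le]
      congr 1
      push_cast
      ring
    rw [e1]
    exact Real.rpow_le_rpow_of_exponent_le hT1 (by linarith)
  have hN := NN_pos lo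
  have hN1 : (1 : ℝ) ≤ NN lo := by linarith [NN_ge lo]
  have hM : (2 + C) / T / (κ * (NN lo : ℝ) ^ (-s)) ≤ X⁻¹ / 4 := by
    have e1 : (NN lo : ℝ)⁻¹ ≤ (NN lo : ℝ) ^ (-s) := by
      rw [← Real.rpow_neg_one]
      exact Real.rpow_le_rpow_of_exponent_le hN1 (by linarith)
    have e2 : T ^ (-(1 / 2 : ℝ)) / 2 * (NN lo : ℝ)⁻¹ ≤ κ * (NN lo : ℝ) ^ (-s) :=
      mul_le_mul hi e1 (by positivity) hκ.le
    have e3 : (0 : ℝ) < T ^ (-(1 / 2 : ℝ)) / 2 * (NN lo : ℝ)⁻¹ := by positivity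
    have e4 : (2 + C) / T / (κ * (NN lo : ℝ) ^ (-s)) ≤
        (2 + C) / T / (T ^ (-(1 / 2 : ℝ)) / 2 * (NN lo : ℝ)⁻¹) :=
      div_le_div_of_nonneg_left (by positivity) e3 e2
    have e5 : (2 + C) / T / (T ^ (-(1 / 2 : ℝ)) / 2 * (NN lo : ℝ)⁻¹) =
        2 * (2 + C) * NN lo * T ^ (-(1 / 2 : ℝ)) := by
      have e6 : T ^ (-(1 / 2 : ℝ)) * T ^ (-(1 / 2 : ℝ)) = T⁻¹ := by
        rw [← Real.rpow_add hT0, ← Real.rpow_neg_one]
        norm_num
      have e7 : T ^ (-(1 / 2 : ℝ)) ≠ 0 := by positivity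
      rw [div_eq_mul_inv (2 + C) T, ← e6]
      field_simp
    rw [e5] at e4
    refine e4.trans ?_
    calc 2 * (2 + C) * NN lo * T ^ (-(1 / 2 : ℝ)) ≤ 2 * (2 + C) * (16 * X ^ 3) * (X ^ 5)⁻¹ := by
          gcongr
      _ = 32 * (2 + C) * (X ^ 2)⁻¹ := by field_simp; ring
      _ ≤ (X / 4) * (X ^ 2)⁻¹ := by
          refine mul_le_mul_of_nonneg_right ?_ (by positivity)
          linarith
      _ = X⁻¹ / 4 := by field_simp
  have h := single88 H3 H4 hχ hs hs1 hg hκ (δ := (2 + C) / T) (t := X⁻¹ / 4) (by positivity) (by positivity) lo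
  refine le_trans (measure_mono ?_) (h.trans (ENNReal.ofReal_le_ofReal (Real.exp_le_exp.2 ?_)))
  · intro ω hω
    obtain ⟨-, hω2⟩ := hω
    rw [← hκd, ← hT, ← hXd] at hω2
    simp only [mem_ofPred_eq]
    linarith
  · rw [← hXd, neg_le_neg_iff]
    calc X / 16 = (X⁻¹ / 4) ^ 2 * (8 * X ^ 3) / 8 := by field_simp; norm_num
      _ ≤ (X⁻¹ / 4) ^ 2 * NN lo / 8 := by gcongr

/-- the entropy is negligible -/
private theorem ent88 {b : ℝ} (hb : 0 < b) (R : ℝ) (k : ℕ) (C : ℝ) : ∀ᶠ j : ℕ in atTop,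
    128 * (2 + C) ≤ ((2 : ℝ) ^ b) ^ j ∧ 2 * ((j : ℝ) + 1) + R * (j : ℝ) ^ k ≤ ((2 : ℝ) ^ b) ^ j / 32 := by
  have hr : 1 < (2 : ℝ) ^ b := Real.one_lt_rpow (by norm_num) hb
  have t1 := tendsto_pow_atTop_atTop_of_one_lt hr
  have t2 := isLittleO_pow_const_const_pow_of_one_lt (R := ℝ) 1 hr
  have t3 := isLittleO_pow_const_const_pow_of_one_lt (R := ℝ) k hr
  have hc : 0 < 1 / (64 * (|R| + 1)) := by positivity
  filter_upwards [t1.eventually_ge_atTop (128 * (2 + C)), t2.def (show (0 : ℝ) < 1 / 512 by norm_num),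
    t3.def hc, eventually_ge_atTop 1] with j h1 h2 h3 h4
  refine ⟨h1, ?_⟩
  have hp : 0 < ((2 : ℝ) ^ b) ^ j := by positivity
  have h4' : (1 : ℝ) ≤ j := by exact_mod_cast h4
  rw [Real.norm_eq_abs, Real.norm_eq_abs, abs_of_pos hp, pow_one, abs_of_nonneg (by positivity)] at h2
  rw [Real.norm_eq_abs, Real.norm_eq_abs, abs_of_pos hp, abs_of_nonneg (by positivity)] at h3
  have h5 : R * (j : ℝ) ^ k ≤ (|R| + 1) * (j : ℝ) ^ k :=
    mul_le_mul_of_nonneg_right (by linarith [le_abs_self R]) (by positivity)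
  have h6 : (|R| + 1) * (j : ℝ) ^ k ≤ (|R| + 1) * (1 / (64 * (|R| + 1)) * ((2 : ℝ) ^ b) ^ j) :=
    mul_le_mul_of_nonneg_left h3 (by positivity)
  have h7 : (|R| + 1) * (1 / (64 * (|R| + 1)) * ((2 : ℝ) ^ b) ^ j) = ((2 : ℝ) ^ b) ^ j / 64 := by
    have : |R| + 1 ≠ 0 := by positivity
    field_simp
  linarith

private theorem union88 (H3 : Mcd) (H4 : VolUpd) {χ : ℝ → ℝ} (hχ : Bump χ) {s : ℝ} (hs : 0 < s) (hs1 : s < 1)
    {C : ℝ} (hC : 1 ≤ C) {b : ℝ} (hb : 0 < b) (hb1 : b ≤ 1 / 10) {R : ℝ} {k J : ℕ}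
    (hJ : ∀ j, J ≤ j → 128 * (2 + C) ≤ ((2 : ℝ) ^ b) ^ j ∧
      2 * ((j : ℝ) + 1) + R * (j : ℝ) ^ k ≤ ((2 : ℝ) ^ b) ^ j / 32)
    (S : ℕ → Finset Kk) (hS : ∀ j, J ≤ j → (∀ g ∈ S j, Measurable g.2) ∧
      ((S j).card : ℝ) ≤ Real.exp (R * (j : ℝ) ^ k)) :
    PP (⋃ m : ℕ, ⋃ i ∈ Finset.range (2 ^ (J + m) + 1), ⋃ g ∈ S (J + m), Bs χ s b C (J + m) i g) ≤
      ENNReal.ofReal (Real.exp (-(((2 : ℝ) ^ b) ^ J / 32))) := by
  have hr : 1 ≤ (2 : ℝ) ^ b := (Real.one_lt_rpow (by norm_num) hb).le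
  have he2 : (2 : ℝ) ≤ Real.exp 1 := by
    have := Real.add_one_le_exp (1 : ℝ)
    linarith
  have key : ∀ m : ℕ, PP (⋃ i ∈ Finset.range (2 ^ (J + m) + 1), ⋃ g ∈ S (J + m), Bs χ s b C (J + m) i g) ≤
      ENNReal.ofReal (Real.exp (-(((2 : ℝ) ^ b) ^ J / 32))) * ENNReal.ofReal ((1 / 2) ^ (m + 1)) := by
    intro m
    obtain ⟨j, hj⟩ : ∃ j, j = J + m := ⟨_, rfl⟩
    rw [← hj]
    obtain ⟨h1, h2⟩ := hJ j (by omega)
    obtain ⟨h3, h4⟩ := hS j (by omega)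
    have hX : ((2 : ℝ) ^ b) ^ J ≤ ((2 : ℝ) ^ b) ^ j := pow_le_pow_right₀ hr (by omega)
    have e1 : PP (⋃ i ∈ Finset.range (2 ^ j + 1), ⋃ g ∈ S j, Bs χ s b C j i g) ≤
        ∑ i ∈ Finset.range (2 ^ j + 1), ∑ g ∈ S j, ENNReal.ofReal (Real.exp (-(((2 : ℝ) ^ b) ^ j / 16))) := by
      refine (measure_biUnion_finset_le _ _).trans (Finset.sum_le_sum fun i _ => ?_)
      refine (measure_biUnion_finset_le _ _).trans (Finset.sum_le_sum fun g hg => ?_)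
      exact perj88 H3 H4 hχ hs hs1 hC hb hb1 h1 i (h3 g hg)
    refine e1.trans ?_
    rw [Finset.sum_const, Finset.sum_const, Finset.card_range, nsmul_eq_mul, nsmul_eq_mul,
      ← ENNReal.ofReal_natCast, ← ENNReal.ofReal_natCast, ← ENNReal.ofReal_mul (by positivity),
      ← ENNReal.ofReal_mul (by positivity), ← ENNReal.ofReal_mul (by positivity)]
    refine ENNReal.ofReal_le_ofReal ?_
    have e2 : (((2 ^ j + 1 : ℕ) : ℝ)) ≤ Real.exp ((j : ℝ) + 1) := by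
      have e3 : (((2 ^ j + 1 : ℕ) : ℝ)) ≤ 2 ^ (j + 1) := by
        push_cast
        have : (1 : ℝ) ≤ 2 ^ j := one_le_pow₀ (by norm_num)
        rw [pow_succ]
        linarith
      have e4 : (2 : ℝ) ^ (j + 1) ≤ (Real.exp 1) ^ (j + 1) := pow_le_pow_left₀ (by norm_num) he2 _
      have e5 : (Real.exp 1) ^ (j + 1) = Real.exp ((j : ℝ) + 1) := by
        rw [← Real.exp_nat_mul]
        push_cast
        rw [mul_one]
      linarith
    have e6 : Real.exp (-((j : ℝ) + 1)) ≤ (1 / 2) ^ (m + 1) := by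
      have e7 : Real.exp (-((j : ℝ) + 1)) ≤ Real.exp (-((m : ℝ) + 1)) := by
        refine Real.exp_le_exp.2 ?_
        have : (m : ℝ) ≤ j := by
          rw [hj]
          push_cast
          linarith [(Nat.cast_nonneg J : (0 : ℝ) ≤ J)]
        linarith
      have e8 : Real.exp (-((m : ℝ) + 1)) = (Real.exp 1)⁻¹ ^ (m + 1) := by
        rw [← Real.exp_neg, ← Real.exp_nat_mul]
        congr 1
        push_cast
        ring
      have e9 : (Real.exp 1)⁻¹ ^ (m + 1) ≤ (1 / 2 : ℝ) ^ (m + 1) := by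
        refine pow_le_pow_left₀ (by positivity) ?_ _
        rw [one_div]
        exact inv_anti₀ (by norm_num) he2
      linarith
    calc ((2 ^ j + 1 : ℕ) : ℝ) * (((S j).card : ℝ) * Real.exp (-(((2 : ℝ) ^ b) ^ j / 16)))
        ≤ Real.exp ((j : ℝ) + 1) * (Real.exp (R * (j : ℝ) ^ k) * Real.exp (-(((2 : ℝ) ^ b) ^ j / 16))) := by
          gcongr
      _ = Real.exp ((j : ℝ) + 1 + (R * (j : ℝ) ^ k + -(((2 : ℝ) ^ b) ^ j / 16))) := by
          rw [Real.exp_add ((j : ℝ) + 1), Real.exp_add (R * (j : ℝ) ^ k)]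
      _ ≤ Real.exp (-(((2 : ℝ) ^ b) ^ J / 32) + -((j : ℝ) + 1)) := by
          refine Real.exp_le_exp.2 ?_
          linarith
      _ = Real.exp (-(((2 : ℝ) ^ b) ^ J / 32)) * Real.exp (-((j : ℝ) + 1)) := Real.exp_add _ _
      _ ≤ Real.exp (-(((2 : ℝ) ^ b) ^ J / 32)) * (1 / 2) ^ (m + 1) := by gcongr
  refine (measure_iUnion_le _).trans ((ENNReal.tsum_le_tsum key).trans ?_)
  rw [ENNReal.tsum_mul_left]
  have h1 : ∑' m : ℕ, ENNReal.ofReal ((1 / 2) ^ (m + 1)) = 1 := by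
    rw [← ENNReal.ofReal_tsum_of_nonneg (fun m => by positivity)
      ((summable_nat_add_iff 1).2 summable_geometric_two)]
    have h2 : ∑' m : ℕ, (1 / 2 : ℝ) ^ (m + 1) = 1 := by
      have h3 := tsum_geometric_two
      simp_rw [pow_succ]
      rw [tsum_mul_right, h3]
      norm_num
    rw [h2, ENNReal.ofReal_one]
  rw [h1, mul_one]

private theorem cont88 {R s : ℝ} (hs : 0 < s) {g : Kk} (h : PotOk R s g.1 g.2) : Continuous g.2 := by
  rw [continuous_iff_continuousAt]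
  intro x
  have e1 : Tendsto (fun y : ℝ => R * |y - x| ^ s) (𝓝 x) (𝓝 0) := by
    have e2 : Continuous fun y : ℝ => R * |y - x| ^ s :=
      continuous_const.mul ((continuous_abs.comp (continuous_id.sub continuous_const)).rpow_const
        fun _ => Or.inr hs.le)
    have e3 := e2.tendsto x
    simpa [hs.ne'] using e3
  have e4 : Tendsto (fun y : ℝ => |g.2 y - g.2 x|) (𝓝 x) (𝓝 0) :=
    squeeze_zero (fun _ => abs_nonneg _) (fun y => h.hold y x) e1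
  have e5 : Tendsto (fun y : ℝ => g.2 y - g.2 x) (𝓝 x) (𝓝 0) := (tendsto_zero_iff_abs_tendsto_zero _).2 e4
  have e6 := e5.add_const (g.2 x)
  simpa [ContinuousAt] using e6

/-- the coupling is small: no bad noise -/
private theorem small88 {χ : ℝ → ℝ} {s : ℝ} {R : ℝ} (hR : 1 ≤ R) {C : ℝ} (hC : 1 ≤ C)
    (hb2 : ∀ ω x, |h2 χ s ω x| ≤ C) {b : ℝ} (hbd : b = 1 / (10 * R)) {γ : ℝ} (hγ : 0 < γ) {A : ℝ} (hA1 : 1 ≤ A)
    (hA : R * (1 + C) ≤ A ^ (4 * b * γ)) {κ : ℝ} {g : Kk} {δ : ℝ} (hκ : 0 < κ) (hn : NdC R κ g.2) (hδ : 0 < δ)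
    (hδA : δ ≤ A ^ (-γ)) (hκδ : κ < √δ) (ω : Om) :
    volume {x : ℝ | x ∈ Ico (0 : ℝ) 1 ∧ |g.2 x + κ * h2 χ s ω x| < δ} ≤ ENNReal.ofReal (δ ^ b) := by
  have hR0 : 0 < R := by linarith
  have hb : 0 < b := by rw [hbd]; positivity
  have hb1 : b ≤ 1 / 10 := by
    rw [hbd, div_le_div_iff₀ (by positivity) (by norm_num)]
    linarith
  have hA0 : 0 < A := by linarith
  have hδ1 : δ ≤ 1 := hδA.trans (Real.rpow_le_one_of_one_le_of_nonpos hA1 (by linarith))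
  have hs0 : 0 < √δ := Real.sqrt_pos.2 hδ
  have hs1 : √δ ≤ 1 := by rw [Real.sqrt_le_one]; exact hδ1
  have hδs : δ ≤ √δ := by
    have : δ = √δ * √δ := (Real.mul_self_sqrt hδ.le).symm
    nlinarith
  have hRC : R ≤ R * (1 + C) := by nlinarith
  rcases hn with hn | hn
  · exfalso
    have h1 : √δ ≤ (A ^ (γ / 2))⁻¹ := by
      rw [← Real.rpow_neg hA0.le]
      refine (Real.sqrt_le_sqrt hδA).trans (le_of_eq ?_)
      rw [Real.sqrt_eq_rpow, ← Real.rpow_mul hA0.le]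
      congr 1
      ring
    have h2 : A ^ (4 * b * γ) ≤ A ^ (γ / 2) :=
      Real.rpow_le_rpow_of_exponent_le hA1 (by nlinarith)
    have h3 : (A ^ (γ / 2))⁻¹ ≤ 1 / R := by
      rw [one_div]
      exact inv_anti₀ hR0 (by linarith)
    linarith
  · have hsub : {x : ℝ | x ∈ Ico (0 : ℝ) 1 ∧ |g.2 x + κ * h2 χ s ω x| < δ} ⊆
        {x : ℝ | x ∈ Ico (0 : ℝ) 1 ∧ |g.2 x| < (1 + C) * √δ} := by
      rintro x ⟨hx, hq⟩
      refine ⟨hx, ?_⟩
      have e1 : g.2 x = (g.2 x + κ * h2 χ s ω x) - κ * h2 χ s ω x := by ring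
      rw [e1]
      have e2 := abs_sub (g.2 x + κ * h2 χ s ω x) (κ * h2 χ s ω x)
      have e3 : |κ * h2 χ s ω x| ≤ √δ * C := by
        rw [abs_mul, abs_of_pos hκ]
        exact mul_le_mul hκδ.le (hb2 ω x) (abs_nonneg _) hs0.le
      linarith
    refine (measure_mono hsub).trans ((hn _ (by positivity)).trans (ENNReal.ofReal_le_ofReal ?_))
    have e10 : 1 / R = 10 * b := by rw [hbd]; field_simp
    rw [Real.mul_rpow (by positivity) hs0.le, Real.sqrt_eq_rpow, ← Real.rpow_mul hδ.le, e10]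
    have e5 : 1 / 2 * (10 * b) = 5 * b := by ring
    rw [e5]
    have e6 : (1 + C) ^ (10 * b) ≤ 1 + C := by
      have := Real.rpow_le_rpow_of_exponent_le (by linarith : (1 : ℝ) ≤ 1 + C) (by linarith : 10 * b ≤ 1)
      rwa [Real.rpow_one] at this
    have e7 : δ ^ (5 * b) = δ ^ b * δ ^ (4 * b) := by
      rw [← Real.rpow_add hδ]
      congr 1
      ring
    have e8 : A ^ (4 * b * γ) * δ ^ (4 * b) ≤ 1 := by
      have e9 : δ ^ (4 * b) ≤ (A ^ (-γ)) ^ (4 * b) := Real.rpow_le_rpow hδ.le hδA (by positivity)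
      rw [← Real.rpow_mul hA0.le] at e9
      calc A ^ (4 * b * γ) * δ ^ (4 * b) ≤ A ^ (4 * b * γ) * A ^ (-γ * (4 * b)) := by gcongr
        _ = 1 := by
            rw [← Real.rpow_add hA0, show 4 * b * γ + -γ * (4 * b) = 0 by ring, Real.rpow_zero]
    have e11 : 0 ≤ δ ^ (4 * b) := Real.rpow_nonneg hδ.le _
    have e12 : 0 ≤ δ ^ b := Real.rpow_nonneg hδ.le _
    calc R * ((1 + C) ^ (10 * b) * δ ^ (5 * b)) ≤ R * ((1 + C) * δ ^ (5 * b)) := by gcongr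
      _ = δ ^ b * (R * (1 + C) * δ ^ (4 * b)) := by rw [e7]; ring
      _ ≤ δ ^ b * (A ^ (4 * b * γ) * δ ^ (4 * b)) := by gcongr
      _ ≤ δ ^ b * 1 := by gcongr
      _ = δ ^ b := mul_one _

/-- the coupling is not small: a bad noise is bad for a point of the net -/
private theorem big88 {χ : ℝ → ℝ} {s : ℝ} {C : ℝ}
    (hb2 : ∀ ω x, |h2 χ s ω x| ≤ C) {b : ℝ} (hb : 0 < b) (hb1 : b ≤ 1) {κ : ℝ} {g g' : Kk} {δ : ℝ} (hκ1 : κ ≤ 1)
    (hδ : 0 < δ) (hκδ : √δ ≤ κ) {j : ℕ} (hj1 : (1 / 2 : ℝ) ^ (j + 1) < δ) (hj2 : δ ≤ (1 / 2) ^ j)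
    (hg : ∀ x, |g.2 x - g'.2 x| ≤ Real.exp (-j)) {ω : Om}
    (h : ENNReal.ofReal (δ ^ b) < volume {x : ℝ | x ∈ Ico (0 : ℝ) 1 ∧ |g.2 x + κ * h2 χ s ω x| < δ}) :
    ∃ i ∈ Finset.range (2 ^ j + 1), ω ∈ Bs χ s b C j i g' := by
  have hs0 : 0 < √δ := Real.sqrt_pos.2 hδ
  have hκ : 0 < κ := by linarith
  obtain ⟨T, hT⟩ : ∃ T : ℝ, T = (2 : ℝ) ^ j := ⟨_, rfl⟩
  have hT1 : 1 ≤ T := by rw [hT]; exact one_le_pow₀ (by norm_num)
  have hT0 : 0 < T := by linarith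
  have e1 : (1 / 2 : ℝ) ^ j = 1 / T := by rw [hT, one_div_pow]
  have e2 : (1 / 2 : ℝ) ^ (j + 1) = 1 / (2 * T) := by
    rw [pow_succ, e1]
    field_simp
  rw [e2] at hj1
  rw [e1] at hj2
  obtain ⟨i, hi⟩ : ∃ i : ℕ, i = ⌈κ * T⌉₊ := ⟨_, rfl⟩
  have hi1 : κ * T ≤ i := by rw [hi]; exact Nat.le_ceil _
  have hi2 : (i : ℝ) ≤ κ * T + 1 := by rw [hi]; exact (Nat.ceil_lt_add_one (by positivity)).le
  have hi3 : i ≤ 2 ^ j := by
    rw [hi]
    refine Nat.ceil_le.2 ?_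
    push_cast
    rw [← hT]
    nlinarith
  have hk1 : κ ≤ i / T := by rw [le_div_iff₀ hT0]; exact hi1
  have hk2 : i / T ≤ κ + 1 / T := by
    rw [div_le_iff₀ hT0, add_mul, one_div, inv_mul_cancel₀ hT0.ne']
    exact hi2
  refine ⟨i, Finset.mem_range.2 (by omega), ?_⟩
  simp only [Bs, mem_ofPred_eq, ← hT]
  constructor
  · have e3 : T ^ (-(1 / 2 : ℝ)) / 2 ≤ √(1 / (2 * T)) := by
      have e4 : T ^ (-(1 / 2 : ℝ)) = √(1 / T) := by
        rw [Real.sqrt_eq_rpow, one_div T, Real.inv_rpow hT0.le, ← Real.rpow_neg hT0.le]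
      rw [e4]
      refine Real.le_sqrt_of_sq_le ?_
      rw [div_pow, Real.sq_sqrt (by positivity), div_div, div_le_div_iff₀ (by positivity) (by positivity)]
      linarith
    have e5 : √(1 / (2 * T)) ≤ √δ := Real.sqrt_le_sqrt hj1.le
    linarith
  · have hp := prob88
    have hexp : Real.exp (-(j : ℝ)) ≤ 1 / T := by
      have he2 : (2 : ℝ) ≤ Real.exp 1 := by
        have := Real.add_one_le_exp (1 : ℝ)
        linarith
      have e5 : Real.exp (-(j : ℝ)) = (Real.exp 1)⁻¹ ^ j := by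
        rw [← Real.exp_neg, ← Real.exp_nat_mul]
        congr 1
        ring
      rw [e5, hT, ← one_div_pow]
      refine pow_le_pow_left₀ (by positivity) ?_ _
      rw [one_div]
      exact inv_anti₀ (by norm_num) he2
    have hsub : {x : ℝ | x ∈ Ico (0 : ℝ) 1 ∧ |g.2 x + κ * h2 χ s ω x| < δ} ⊆
        {x : ℝ | |g'.2 x + i / T * h2 χ s ω x| < (2 + C) / T} ∩ Ico 0 1 := by
      rintro x ⟨hx, hq⟩
      refine ⟨?_, hx⟩
      simp only [mem_ofPred_eq]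
      have f1 : g'.2 x + i / T * h2 χ s ω x = (g.2 x + κ * h2 χ s ω x) - (g.2 x - g'.2 x) +
          (i / T - κ) * h2 χ s ω x := by ring
      have f2 : |(i / T - κ) * h2 χ s ω x| ≤ 1 / T * C := by
        rw [abs_mul, abs_of_nonneg (by linarith)]
        exact mul_le_mul (by linarith) (hb2 ω x) (abs_nonneg _) (by positivity)
      have f3 := (hg x).trans hexp
      rw [f1]
      have f4 := abs_add_le ((g.2 x + κ * h2 χ s ω x) - (g.2 x - g'.2 x)) ((i / T - κ) * h2 χ s ω x)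
      have f5 := abs_sub (g.2 x + κ * h2 χ s ω x) (g.2 x - g'.2 x)
      have f6 : (2 + C) / T = 1 / T + 1 / T + 1 / T * C := by ring
      linarith
    have h1 : ENNReal.ofReal (δ ^ b) ≤ (volume.restrict (Ico (0 : ℝ) 1))
        {x : ℝ | |g'.2 x + i / T * h2 χ s ω x| < (2 + C) / T} := by
      refine h.le.trans ((measure_mono hsub).trans ?_)
      exact Measure.le_restrict_apply _ _
    have h2 : δ ^ b ≤ vf χ s (i / T) ((2 + C) / T) g'.2 ω := by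
      unfold vf
      rw [Measure.real]
      exact (ENNReal.ofReal_le_iff_le_toReal (measure_ne_top _ _)).1 h1
    refine le_trans ?_ h2
    have e3 : ((2 : ℝ) ^ b) ^ j = T ^ b := by rw [hT, Real.rpow_pow_comm (by norm_num)]
    have e4 : (1 / (2 * T)) ^ b ≤ δ ^ b := Real.rpow_le_rpow (by positivity) hj1.le hb.le
    refine le_trans ?_ e4
    rw [e3, one_div, Real.inv_rpow (by positivity), Real.mul_rpow (by norm_num) hT0.le, mul_inv]
    have e5 : (2 : ℝ) ^ b ≤ 2 := by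
      have := Real.rpow_le_rpow_of_exponent_le (by norm_num : (1 : ℝ) ≤ 2) hb1
      rwa [Real.rpow_one] at this
    have e6 : (2 : ℝ)⁻¹ ≤ ((2 : ℝ) ^ b)⁻¹ := inv_anti₀ (by positivity) e5
    have e7 : 0 ≤ (T ^ b)⁻¹ := by positivity
    rw [div_eq_mul_inv, mul_comm]
    exact mul_le_mul_of_nonneg_right e6 e7

theorem ndEvent_of (H3 : Mcd) (H4 : VolUpd) {χ : ℝ → ℝ} (hχ : Bump χ) {s : ℝ} (hs : 0 < s) (hs1 : s < 1)
    {R : ℝ} (hR : 1 ≤ R) (k : ℕ) :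
    ∃ b : ℝ, 0 < b ∧ b ≤ 1 ∧ ∀ γ : ℝ, 0 < γ → ∃ c A₁ : ℝ, 0 < c ∧ 1 ≤ A₁ ∧
      ∀ 𝒢 : Set Kk, (∀ g ∈ 𝒢, PotOk R s g.1 g.2) → Ent2 R k 𝒢 → ∀ A, A₁ ≤ A →
        PP {ω | ∃ (κ : ℝ) (g : Kk) (δ : ℝ), 0 < κ ∧ κ ≤ 1 ∧ g ∈ 𝒢 ∧ NdC R κ g.2 ∧ 0 < δ ∧ δ ≤ A ^ (-γ) ∧
          ENNReal.ofReal (δ ^ b) < volume {x : ℝ | x ∈ Ico (0 : ℝ) 1 ∧ |g.2 x + κ * h2 χ s ω x| < δ}} ≤
          ENNReal.ofReal (Real.exp (-A ^ c)) := by
  obtain ⟨C, hC, hh⟩ := h_ok hχ hs hs1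
  have hb2 : ∀ ω x, |h2 χ s ω x| ≤ C := fun ω x => (hh ω).2.2.2.2.2.2.2.2.1 x
  have hR0 : 0 < R := by linarith
  obtain ⟨b, hbd⟩ : ∃ b : ℝ, b = 1 / (10 * R) := ⟨_, rfl⟩
  have hb : 0 < b := by rw [hbd]; positivity
  have hb1 : b ≤ 1 / 10 := by
    rw [hbd, div_le_div_iff₀ (by positivity) (by norm_num)]
    linarith
  refine ⟨b, hb, by linarith, fun γ hγ => ?_⟩
  obtain ⟨j₀, hj₀⟩ := eventually_atTop.1 (ent88 hb R k C)
  have t1 : Tendsto (fun A : ℝ => A ^ (4 * b * γ)) atTop atTop := tendsto_rpow_atTop (by positivity)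
  have t2 : Tendsto (fun A : ℝ => A ^ γ) atTop atTop := tendsto_rpow_atTop hγ
  have t3 : Tendsto (fun A : ℝ => A ^ (γ * b / 2)) atTop atTop := tendsto_rpow_atTop (by positivity)
  obtain ⟨A₂, hA₂⟩ := eventually_atTop.1 ((t1.eventually_ge_atTop (R * (1 + C))).and
    ((t2.eventually_gt_atTop ((2 : ℝ) ^ (j₀ + 1))).and (t3.eventually_ge_atTop 64)))
  refine ⟨γ * b / 2, max 1 A₂, by positivity, le_max_left _ _, fun 𝒢 hG hE A hA => ?_⟩
  have hA1 : 1 ≤ A := (le_max_left _ _).trans hA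
  have hA0 : 0 < A := by linarith
  obtain ⟨a1, a2, a3⟩ := hA₂ A ((le_max_right _ _).trans hA)
  have hex : ∃ J : ℕ, A ^ γ ≤ (2 : ℝ) ^ (J + 1) := by
    obtain ⟨n, hn⟩ := pow_unbounded_of_one_lt (A ^ γ) (by norm_num : (1 : ℝ) < 2)
    exact ⟨n, hn.le.trans (pow_le_pow_right₀ (by norm_num) (by omega))⟩
  classical
  obtain ⟨J, hJ1, hJ2⟩ : ∃ J : ℕ, A ^ γ ≤ (2 : ℝ) ^ (J + 1) ∧ ∀ j : ℕ, A ^ γ ≤ (2 : ℝ) ^ (j + 1) → J ≤ j :=
    ⟨Nat.find hex, Nat.find_spec hex, fun j hj => Nat.find_min' hex hj⟩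
  have hJ0 : j₀ + 1 ≤ J := by
    by_contra hc
    have h1 : (2 : ℝ) ^ (J + 1) ≤ 2 ^ (j₀ + 1) := pow_le_pow_right₀ (by norm_num) (by omega)
    linarith
  have hE' : ∀ j : ℕ, ∃ S : Finset Kk, J ≤ j → (↑S : Set Kk) ⊆ 𝒢 ∧ (S.card : ℝ) ≤ Real.exp (R * (j : ℝ) ^ k) ∧
      ∀ g ∈ 𝒢, ∃ f ∈ S, ∀ x, |g.1 x - f.1 x| ≤ Real.exp (-j) ∧ |g.2 x - f.2 x| ≤ Real.exp (-j) := by
    intro j
    by_cases hj : J ≤ j
    · obtain ⟨S, h1⟩ := hE j (by omega)
      exact ⟨S, fun _ => h1⟩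
    · exact ⟨∅, fun h => absurd h hj⟩
  choose S hS using hE'
  have hU := union88 H3 H4 hχ hs hs1 hC hb hb1 (R := R) (k := k) (J := J)
    (fun j hj => hj₀ j (by omega)) S
    (fun j hj => ⟨fun g hg => (cont88 hs (hG g ((hS j hj).1 hg))).measurable, (hS j hj).2.1⟩)
  refine le_trans (measure_mono ?_) (hU.trans (ENNReal.ofReal_le_ofReal (Real.exp_le_exp.2 ?_)))
  · rintro ω ⟨κ, g, δ, hκ, hκ1, hgG, hn, hδ, hδA, hv⟩
    rcases lt_or_ge κ (√δ) with hκδ | hκδ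
    · exact absurd hv (not_lt.2 (small88 hR hC hb2 hbd hγ hA1 a1 hκ hn hδ hδA hκδ ω))
    · have hδ1 : δ ≤ 1 := hδA.trans (Real.rpow_le_one_of_one_le_of_nonpos hA1 (by linarith))
      obtain ⟨j, hj1, hj2⟩ := exists_nat_pow_near_of_lt_one hδ hδ1 (by norm_num : (0 : ℝ) < 1 / 2)
        (by norm_num : (1 / 2 : ℝ) < 1)
      have hjJ : J ≤ j := by
        refine hJ2 j ?_
        have h1 : (1 / 2 : ℝ) ^ (j + 1) < A ^ (-γ) := lt_of_lt_of_le hj1 hδA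
        rw [Real.rpow_neg hA0.le, one_div_pow, one_div] at h1
        exact ((inv_lt_inv₀ (by positivity) (by positivity)).1 h1).le
      obtain ⟨m, hm⟩ : ∃ m, j = J + m := ⟨j - J, by omega⟩
      obtain ⟨g', hg'S, hg'⟩ := (hS j hjJ).2.2 g hgG
      obtain ⟨i, hi1, hi2⟩ := big88 hb2 hb (by linarith) hκ1 hδ hκδ hj1 hj2
        (fun x => (hg' x).2) hv
      rw [hm] at hi1 hi2 hg'S
      simp only [mem_iUnion]
      exact ⟨m, i, hi1, g', hg'S, hi2⟩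
  · rw [neg_le_neg_iff]
    have h1 : (A ^ γ / 2) ^ b ≤ ((2 : ℝ) ^ b) ^ J := by
      rw [Real.rpow_pow_comm (by norm_num)]
      refine Real.rpow_le_rpow (by positivity) ?_ hb.le
      rw [pow_succ] at hJ1
      linarith
    have h2 : (A ^ γ / 2) ^ b = A ^ (γ * b / 2) * A ^ (γ * b / 2) / 2 ^ b := by
      rw [Real.div_rpow (by positivity) (by norm_num), ← Real.rpow_mul hA0.le, ← Real.rpow_add hA0]
      congr 2
      ring
    have h3 : (2 : ℝ) ^ b ≤ 2 := by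
      have := Real.rpow_le_rpow_of_exponent_le (by norm_num : (1 : ℝ) ≤ 2) (by linarith : b ≤ 1)
      rwa [Real.rpow_one] at this
    have h4 : 0 < A ^ (γ * b / 2) := by positivity
    have h5 : A ^ (γ * b / 2) * A ^ (γ * b / 2) / 2 ≤ A ^ (γ * b / 2) * A ^ (γ * b / 2) / 2 ^ b :=
      div_le_div_of_nonneg_left (by positivity) (by positivity) h3
    nlinarith

end Pool.Agent.Helper88.AP
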